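import Pool.Agent.Helper85.LN2.Fr
import Pool.Agent.Helper2.LN.FIDX

/-! Project LN2 (MP_d0c558_al): goal SUBX, subexponential growth. -/

namespace Pool.Agent.Helper93.LN2

open Pool.Agent.Helper85.LN Pool.Agent.Helper85.LN2
open Pool.Agent.Helper5.Gap
open Pool.Agent.Helper2.LN

theorem LB_card2 {m d : ℕ} (A : Auto (Fin m) (Fin d)) (a : Fin d) (hS : ¬ SecFin A a) (r k : ℕ) :
    (r + 1) * (LB A a k).ncard ≤ growth (Set.range A.perm) (r + k) := by
  have h1 := Om_card A a hS r
  have hex : ∀ ω ∈ Om A a r, ∃ g ∈ ball (Set.range A.perm) r,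
      (QuotientGroup.mk g : Equiv.Perm (List (Fin d)) ⧸ Lg A a) = ω := fun ω hω => hω
  choose! f hr1 hr2 using hex
  have h2 : ((Om A a r) ×ˢ (LB A a k)).ncard ≤ (ball (Set.range A.perm) (r + k)).ncard := by
    refine Set.ncard_le_ncard_of_injOn (fun x => f x.1 * x.2) ?_ ?_ (finite_ball A _)
    · rintro ⟨ω, l⟩ ⟨hω, hl⟩
      exact mul_mem_ball A (hr1 ω hω) hl.1
    · rintro ⟨ω, l⟩ ⟨hω, hl⟩ ⟨ω', l'⟩ ⟨hω', hl'⟩ heq
      simp only at heq hω hω' hl hl'
      have h3 : ∀ ω ∈ Om A a r, ∀ l ∈ LB A a k,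
          (QuotientGroup.mk (f ω * l) : Equiv.Perm (List (Fin d)) ⧸ Lg A a) = ω := by
        intro ω hω l hl
        conv_rhs => rw [← hr2 ω hω]
        refine (QuotientGroup.eq.mpr ?_).symm
        rw [inv_mul_cancel_left]
        exact hl.2
      have h4 : ω = ω' := by
        rw [← h3 ω hω l hl, heq, h3 ω' hω' l' hl']
      subst h4
      have h5 : l = l' := mul_left_cancel heq
      rw [h5]
  rw [Set.ncard_prod] at h2
  calc (r + 1) * (LB A a k).ncard ≤ (Om A a r).ncard * (LB A a k).ncard :=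
        Nat.mul_le_mul_right _ h1
    _ ≤ _ := h2

theorem subx : S_SUBX := by
  intro m d A hLN hsub a
  by_contra hS
  obtain ⟨c, hc⟩ := exists_c A a
  have hd : 0 < d := a.pos
  have hβ1 : ∀ n, 1 ≤ growth (Set.range A.perm) n := by
    intro n
    have : (ball (Set.range A.perm) n).Nonempty := ⟨1, one_mem_ball A n⟩
    exact (Set.ncard_pos (finite_ball A n)).mpr this
  have hstep : ∀ n, 2 * growth (Set.range A.perm) n ≤ growth (Set.range A.perm) (n + (2 * d + c)) := by
    intro n
    have h1 : (2 * d + 1) * growth (Set.range A.perm) n ≤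
        d * growth (Set.range A.perm) (2 * d + (n + c)) := by
      calc (2 * d + 1) * growth (Set.range A.perm) n
          ≤ (2 * d + 1) * (d * (SB A a (n + c)).ncard) := Nat.mul_le_mul_left _ (hc n)
        _ ≤ (2 * d + 1) * (d * (LB A a (n + c)).ncard) :=
            Nat.mul_le_mul_left _ (Nat.mul_le_mul_left _ (SB_le_LB A hLN a _))
        _ = d * ((2 * d + 1) * (LB A a (n + c)).ncard) := by ring
        _ ≤ d * growth (Set.range A.perm) (2 * d + (n + c)) :=
            Nat.mul_le_mul_left _ (LB_card2 A a hS (2 * d) (n + c))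
    have h2 : n + (2 * d + c) = 2 * d + (n + c) := by ring
    rw [h2]
    refine Nat.le_of_mul_le_mul_left ?_ hd
    calc d * (2 * growth (Set.range A.perm) n) = (2 * d) * growth (Set.range A.perm) n := by ring
      _ ≤ (2 * d + 1) * growth (Set.range A.perm) n := Nat.mul_le_mul_right _ (Nat.le_succ _)
      _ ≤ _ := h1
  have hpow : ∀ j, 2 ^ j ≤ growth (Set.range A.perm) ((2 * d + c) * j) := by
    intro j
    induction j with
    | zero => simpa using hβ1 0
    | succ j ih =>
      have h1 := hstep ((2 * d + c) * j)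
      have h2 : (2 * d + c) * j + (2 * d + c) = (2 * d + c) * (j + 1) := by ring
      rw [h2] at h1
      calc 2 ^ (j + 1) = 2 * 2 ^ j := by ring
        _ ≤ 2 * growth (Set.range A.perm) ((2 * d + c) * j) := Nat.mul_le_mul_left _ ih
        _ ≤ _ := h1
  obtain ⟨n, hn⟩ := hsub (2 * d + c)
  exact absurd (hpow n) (not_le.mpr hn)

end Pool.Agent.Helper93.LN2
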